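import Pool.Agent.J4H78.GP.Rec
import Pool.Agent.J4H78.GP.Spl
import Pool.Agent.J4H78.GP.Loc
import Pool.Agent.J4H78.GP.Fin
import Pool.Agent.J4H21.GP.W
import Pool.Agent.J4H21.GP.Unf
import Pool.Agent.J4H21.GP.Chr
import Pool.Agent.J4H21.GP.Low
import Pool.Agent.J4H14.GP.Ftb
import Pool.Agent.J4H14.GP.Feb
import Pool.Agent.J4H14.GP.Mult
import Pool.Agent.J4H57.GP.Zb
import Pool.Agent.J4H57.GP.T
import Pool.Agent.J4H57.GP.Res
import Pool.Agent.J4H42.GP.Hom
import Pool.Agent.J4H42.GP.Ch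
import Pool.Agent.J4H42.GP.Fld
import Pool.Agent.J4H19.GP.Sieve
import Pool.Agent.J4H19.GP.Odd
import Pool.Agent.J4H67.GP.Bas
import Pool.Agent.J4H67.GP.Bd
import Pool.Agent.J4H67.GP.Cnt

/-!
# The small primes generate the class group of the field of the square root of `p`, for almost all `p`

For every `δ > 0` there are `A` and `C` such that, for every `x ≥ 1`, all but at most `C x ^ δ` of the
primes `p ≤ x` have the following property: the classes of the prime ideals whose norm is a prime number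
`≤ (log p) ^ A` generate the whole ideal class group of the real quadratic field `K` of the square root of
`p`.  In particular `h(p) = 1` if and only if all these prime ideals are principal.

Under the generalized Riemann hypothesis this is known for all `p`, with `A = 2` (Bach).  The proof is a
large sieve inequality for the characters of the class groups of different fields: the product of a
character of the class group of the field of `√p` and of one of the field of `√p'` is a character of the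
class group of their composite, a totally real field of degree four, whose theta series gives the
cancellation.
-/

set_option autoImplicit false

open NumberField

namespace Pool.Agent.Results.MP_d0fd9b_nt.SmallPrimesGenerate

/-- The nonzero ideals of `K` whose norm is a prime number and at most `B`. -/
def smallPrimes (K : Type) [Field K] [NumberField K] (B : ℝ) :
    Set (nonZeroDivisors (Ideal (𝓞 K))) :=
  {𝔮 | (Ideal.absNorm (𝔮 : Ideal (𝓞 K))).Prime ∧
    ((Ideal.absNorm (𝔮 : Ideal (𝓞 K)) : ℕ) : ℝ) ≤ B}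

/-- The subgroup of the class group generated by the classes of these ideals. -/
noncomputable def genBy (K : Type) [Field K] [NumberField K] (B : ℝ) :
    Subgroup (ClassGroup (𝓞 K)) :=
  Subgroup.closure ((fun 𝔮 => ClassGroup.mk0 𝔮) '' smallPrimes K B)

/-- All these ideals are principal. -/
def allPrincipal (K : Type) [Field K] [NumberField K] (B : ℝ) : Prop :=
  ∀ 𝔮 ∈ smallPrimes K B, (𝔮 : Ideal (𝓞 K)).IsPrincipal

/-- For every quadratic field `K` that contains a square root of `p`: the classes of the prime ideals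
whose norm is a prime number `≤ B` generate the ideal class group of `K`, and the class number of `K` is
one if and only if all these prime ideals are principal. -/
def Generated (p : ℕ) (B : ℝ) : Prop :=
  ∀ (K : Type) [Field K] [NumberField K], Module.finrank ℚ K = 2 → (∃ s : K, s ^ 2 = (p : K)) →
    genBy K B = ⊤ ∧ (classNumber K = 1 ↔ allPrincipal K B)

theorem all_parts : Pool.Agent.J4H78.GP.S_FIN := by
  have hW := Pool.Agent.J4H21.GP.t_W
  have hT := Pool.Agent.J4H57.GP.t_T hW Pool.Agent.J4H21.GP.t_UNF Pool.Agent.J4H14.GP.t_FEB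
  have hPAIR := Pool.Agent.J4H78.GP.t_PAIR Pool.Agent.J4H42.GP.t_FLD Pool.Agent.J4H42.GP.t_CH
    (Pool.Agent.J4H14.GP.t_MULT Pool.Agent.J4H78.GP.t_LOC Pool.Agent.J4H42.GP.t_HOM)
    Pool.Agent.J4H78.GP.t_REC (Pool.Agent.J4H57.GP.t_RES hT hW) Pool.Agent.J4H19.GP.t_EX hW
    Pool.Agent.J4H57.GP.t_ZB
  have hBAS := Pool.Agent.J4H67.GP.t_BAS hPAIR Pool.Agent.J4H19.GP.t_LS Pool.Agent.J4H67.GP.t_BD hW
    Pool.Agent.J4H19.GP.t_EX Pool.Agent.J4H78.GP.t_SPL
  have hCNT := Pool.Agent.J4H67.GP.t_CNT hBAS Pool.Agent.J4H21.GP.t_LOW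
  exact Pool.Agent.J4H78.GP.t_FIN hCNT (Pool.Agent.J4H21.GP.t_CHR Pool.Agent.J4H19.GP.t_ODD)

lemma generated_of {p : ℕ} {B : ℝ} (h : Pool.Agent.J4H78.GP.Gen p B) : Generated p B := by
  intro K _ _ h2 hs
  have h1 := h K ⟨h2, hs⟩
  have hset : (fun 𝔮 => ClassGroup.mk0 𝔮) '' smallPrimes K B =
      {c : ClassGroup (𝓞 K) | ∃ 𝔮 : nonZeroDivisors (Ideal (𝓞 K)),
        (Ideal.absNorm (𝔮 : Ideal (𝓞 K))).Prime ∧
        ((Ideal.absNorm (𝔮 : Ideal (𝓞 K)) : ℕ) : ℝ) ≤ B ∧ ClassGroup.mk0 𝔮 = c} := by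
    ext c
    constructor
    · rintro ⟨𝔮, ⟨h3, h4⟩, h5⟩
      exact ⟨𝔮, h3, h4, h5⟩
    · rintro ⟨𝔮, h3, h4, h5⟩
      exact ⟨𝔮, ⟨h3, h4⟩, h5⟩
  have hgen : Subgroup.closure ((fun 𝔮 => ClassGroup.mk0 𝔮) '' smallPrimes K B) = ⊤ := by
    rw [hset]
    exact h1
  have hgen' : genBy K B = ⊤ := hgen
  refine ⟨hgen', ?_, ?_⟩
  · intro hc 𝔮 _
    have hsub : Subsingleton (ClassGroup (𝓞 K)) := by
      rw [← Fintype.card_le_one_iff_subsingleton]
      exact hc.le
    exact (ClassGroup.mk0_eq_one_iff 𝔮.2).mp (Subsingleton.elim _ _)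
  · intro hp
    have h3 : (⊤ : Subgroup (ClassGroup (𝓞 K))) ≤ ⊥ := by
      rw [← hgen, Subgroup.closure_le]
      rintro c ⟨𝔮, h4, rfl⟩
      exact (ClassGroup.mk0_eq_one_iff 𝔮.2).mpr (hp 𝔮 h4)
    have h4 : Subsingleton (ClassGroup (𝓞 K)) := by
      refine ⟨fun a b => ?_⟩
      rw [Subgroup.mem_bot.mp (h3 (Subgroup.mem_top a)), Subgroup.mem_bot.mp (h3 (Subgroup.mem_top b))]
    exact Fintype.card_eq_one_iff_nonempty_unique.mpr ⟨⟨⟨1⟩, fun a => Subsingleton.elim _ _⟩⟩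

/-- For every `δ > 0` there are `A` and `C` such that, for every real `x ≥ 1`, all but at most `C x ^ δ`
of the primes `p ≤ x` are such that the class group of the field of the square root of `p` is generated by
the classes of the prime ideals whose norm is a prime number `≤ (log p) ^ A`, and such that `h(p) = 1` if
and only if these prime ideals are principal. -/
theorem result : ∀ δ : ℝ, 0 < δ → ∃ A C : ℝ, 0 < A ∧ 0 < C ∧ ∀ x : ℝ, 1 ≤ x →
    {p : ℕ | p.Prime ∧ (p : ℝ) ≤ x ∧ ¬ Generated p ((Real.log p) ^ A)}.Finite ∧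
    ({p : ℕ | p.Prime ∧ (p : ℝ) ≤ x ∧ ¬ Generated p ((Real.log p) ^ A)}.ncard : ℝ) ≤ C * x ^ δ := by
  intro δ hδ
  obtain ⟨A, C, hA, hC, h⟩ := all_parts δ hδ
  refine ⟨A, C, hA, hC, fun x hx => ?_⟩
  have hfin : {p : ℕ | p.Prime ∧ p ≤ ⌊x⌋₊ ∧ ¬ Pool.Agent.J4H78.GP.Gen p ((Real.log p) ^ A)}.Finite :=
    (Set.finite_Iic ⌊x⌋₊).subset fun p hp => hp.2.1
  have hsub : {p : ℕ | p.Prime ∧ (p : ℝ) ≤ x ∧ ¬ Generated p ((Real.log p) ^ A)} ⊆
      {p : ℕ | p.Prime ∧ p ≤ ⌊x⌋₊ ∧ ¬ Pool.Agent.J4H78.GP.Gen p ((Real.log p) ^ A)} :=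
    fun p hp => ⟨hp.1, Nat.le_floor hp.2.1, fun h1 => hp.2.2 (generated_of h1)⟩
  refine ⟨hfin.subset hsub, ?_⟩
  have h1 : (1 : ℕ) ≤ ⌊x⌋₊ := Nat.le_floor (by exact_mod_cast hx)
  calc ({p : ℕ | p.Prime ∧ (p : ℝ) ≤ x ∧ ¬ Generated p ((Real.log p) ^ A)}.ncard : ℝ)
      ≤ ({p : ℕ | p.Prime ∧ p ≤ ⌊x⌋₊ ∧
          ¬ Pool.Agent.J4H78.GP.Gen p ((Real.log p) ^ A)}.ncard : ℝ) := by
        exact_mod_cast Set.ncard_le_ncard hsub hfin
    _ ≤ C * (⌊x⌋₊ : ℝ) ^ δ := h _ h1
    _ ≤ C * x ^ δ := mul_le_mul_of_nonneg_left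
        (Real.rpow_le_rpow (Nat.cast_nonneg _) (Nat.floor_le (by linarith)) hδ.le) hC.le

end Pool.Agent.Results.MP_d0fd9b_nt.SmallPrimesGenerate
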